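import Pool.Agent.Helper76.TH3.StC3

/-!
# Project TH (level `2 * 3^n`), module TYPH3: maps of the plane and their types

All maps are written as pairs of fractional linear maps in one coordinate; the relations are identities of matrices up to scalars.
Model: Pool/Agent/Helper55/TH7/M_TYPH7.lean.
-/

set_option autoImplicit false

namespace Pool.Agent.Helper27.TH3

open Pool.Agent.Helper76.TH3 Pool.Agent.Helper93.TLH

private theorem unit3 {m : ℕ} (a : ℤ) (ha : ¬ (3 : ℤ) ∣ a) (z : ZMod (3 ^ m)) :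
    IsUnit ((a : ZMod (3 ^ m)) + 3 * z) := by
  obtain ⟨k, rfl⟩ := ZMod.intCast_surjective z
  have hp3 : Prime (3 : ℤ) := by norm_num
  have h1 : IsCoprime (3 : ℤ) (a + 3 * k) := by
    refine (Irreducible.coprime_iff_not_dvd hp3.irreducible).mpr fun h => ha ?_
    exact (dvd_add_left (dvd_mul_right 3 k)).mp h
  obtain ⟨u, v, huv⟩ := h1.pow_left (m := m)
  refine IsUnit.of_mul_eq_one ((v : ZMod (3 ^ m))) ?_
  have h2 := congrArg (Int.cast : ℤ → ZMod (3 ^ m)) huv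
  push_cast at h2
  have h3 : (3 : ZMod (3 ^ m)) ^ m = 0 := by
    have := ZMod.natCast_self (3 ^ m)
    push_cast at this
    exact this
  rw [h3] at h2
  linear_combination h2

private theorem unitA (μ : ℕ) {m : ℕ} (a c : ℤ) (ha : ¬ (3 : ℤ) ∣ a) (x : ZMod (3 ^ m)) :
    IsUnit ((a : ZMod (3 ^ m)) + 3 ^ (μ + 1) * c * x) := by
  have h := unit3 (m := m) a ha (3 ^ μ * c * x)
  have e : (a : ZMod (3 ^ m)) + 3 * (3 ^ μ * c * x) = (a : ZMod (3 ^ m)) + 3 ^ (μ + 1) * c * x := by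
    ring
  rwa [e] at h

private theorem frac_eq {n : ℕ} {x y s t : ZMod n} (hs : IsUnit s) (ht : IsUnit t)
    (h : x * t = y * s) : x * s⁻¹ = y * t⁻¹ := by
  have h1 := ZMod.mul_inv_of_unit s hs
  have h2 := ZMod.mul_inv_of_unit t ht
  linear_combination (x * s⁻¹) * (-h2) + (y * t⁻¹) * h1 + s⁻¹ * t⁻¹ * h

/-- The fraction in the definition of `trp`. -/
private noncomputable def mob (μ : ℕ) {m : ℕ} (a b c d : ℤ) (t : ZMod (3 ^ m)) : ZMod (3 ^ m) :=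
  ((b : ZMod (3 ^ m)) + d * t) * ((a : ZMod (3 ^ m)) + 3 ^ (μ + 1) * c * t)⁻¹

private theorem trp_eq (μ : ℕ) {m : ℕ} (a b c d : ℤ) (p : Pt m) :
    trp μ a b c d p = (mob μ a b c d p.1, mob μ d c b a p.2) := rfl

private theorem mob_mob (μ : ℕ) {m : ℕ} (a b c d a' b' c' d' : ℤ) (ha : ¬ (3 : ℤ) ∣ a)
    (ha' : ¬ (3 : ℤ) ∣ a') (hA : ¬ (3 : ℤ) ∣ a * a' + 3 ^ (μ + 1) * b * c') (t : ZMod (3 ^ m)) :
    mob μ a' b' c' d' (mob μ a b c d t) =
      mob μ (a * a' + 3 ^ (μ + 1) * b * c') (a * b' + b * d') (c * a' + d * c')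
        (3 ^ (μ + 1) * c * b' + d * d') t := by
  have h1 := ZMod.mul_inv_of_unit _ (unitA μ a c ha t)
  refine frac_eq (unitA μ a' c' ha' _) (unitA μ _ _ hA t) ?_
  unfold mob
  push_cast
  linear_combination (d' * ((b : ZMod (3 ^ m)) + d * t) * a' -
    b' * (3 ^ (μ + 1) * c' * ((b : ZMod (3 ^ m)) + d * t))) * h1

private theorem mob_neg (μ : ℕ) {m : ℕ} (a b c d : ℤ) (ha : ¬ (3 : ℤ) ∣ a) (t : ZMod (3 ^ m)) :
    mob μ (-a) (-b) (-c) (-d) t = mob μ a b c d t := by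
  have ha' : ¬ (3 : ℤ) ∣ -a := fun h => ha ((dvd_neg).mp h)
  refine frac_eq (unitA μ (-a) (-c) ha' t) (unitA μ a c ha t) ?_
  push_cast
  ring

private theorem mob_id (μ : ℕ) {m : ℕ} (t : ZMod (3 ^ m)) : mob μ 1 0 0 1 t = t := by
  unfold mob
  simp

private theorem mob_arg_neg (μ : ℕ) {m : ℕ} (a b c d : ℤ) (t : ZMod (3 ^ m)) :
    mob μ a b c d (-t) = mob μ a b (-c) (-d) t := by
  unfold mob
  push_cast
  ring_nf

private theorem neg_mob (μ : ℕ) {m : ℕ} (a b c d : ℤ) (t : ZMod (3 ^ m)) :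
    -mob μ a b c d t = mob μ a (-b) c (-d) t := by
  unfold mob
  push_cast
  ring_nf

private theorem dv_mob (μ : ℕ) {m : ℕ} (a b c d s : ℤ) (ha : ¬ (3 : ℤ) ∣ a)
    (hs : (3 : ℤ) ∣ a * d - 3 ^ (μ + 1) * b * c - s * a ^ 2) :
    Dv s (mob μ a b c d : ZMod (3 ^ m) → ZMod (3 ^ m)) := by
  intro i x x' hx
  obtain ⟨k, hk⟩ := hx
  obtain ⟨q, hq⟩ := hs
  have hq' := congrArg (Int.cast : ℤ → ZMod (3 ^ m)) hq
  push_cast at hq'
  have h := ZMod.mul_inv_of_unit _ (unitA μ a c ha x)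
  have h' := ZMod.mul_inv_of_unit _ (unitA μ a c ha x')
  unfold mob
  set v := ((a : ZMod (3 ^ m)) + 3 ^ (μ + 1) * c * x)⁻¹ with hv
  set v' := ((a : ZMod (3 ^ m)) + 3 ^ (μ + 1) * c * x')⁻¹ with hv'
  refine ⟨k * v * v' * (q - s * (3 ^ μ * c * x * a + 3 ^ μ * c * x' * a +
    3 ^ μ * 3 ^ (μ + 1) * c ^ 2 * x * x')), ?_⟩
  linear_combination (((b : ZMod (3 ^ m)) + d * x') * v' + s * (x - x')) * h +
    (-((b : ZMod (3 ^ m)) + d * x) * v +
      s * (x - x') * (((a : ZMod (3 ^ m)) + 3 ^ (μ + 1) * c * x) * v)) * h' +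
    v * v' * ((a * d - 3 ^ (μ + 1) * b * c) - s * (((a : ZMod (3 ^ m)) + 3 ^ (μ + 1) * c * x) *
      ((a : ZMod (3 ^ m)) + 3 ^ (μ + 1) * c * x'))) * hk + 3 ^ i * k * v * v' * hq'

private theorem dv_neg {m : ℕ} : Dv (-1) (fun x : ZMod (3 ^ m) => -x) := by
  intro i x x' _
  refine ⟨0, ?_⟩
  push_cast
  ring

private theorem dv_id {m : ℕ} : Dv 1 (fun x : ZMod (3 ^ m) => x) := by
  intro i x x' _
  refine ⟨0, ?_⟩
  push_cast
  ring

private theorem ty0 {m : ℕ} (r : Pt m → Pt m) (μ : ℕ) (s s' : ℤ) (a b c d a' b' c' d' : ℤ)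
    (ha : ¬ (3 : ℤ) ∣ a) (ha' : ¬ (3 : ℤ) ∣ a') (h1 : ¬ (3 : ℤ) ∣ s) (h2 : ¬ (3 : ℤ) ∣ s - 1)
    (h3 : ¬ (3 : ℤ) ∣ s') (h4 : ¬ (3 : ℤ) ∣ s' - 1)
    (hs : (3 : ℤ) ∣ a * d - 3 ^ (μ + 1) * b * c - s * a ^ 2)
    (hs' : (3 : ℤ) ∣ a' * d' - 3 ^ (μ + 1) * b' * c' - s' * a' ^ 2)
    (h : ∀ p : Pt m, r p = (mob μ a b c d p.1, mob μ a' b' c' d' p.2)) : Ty 0 r :=
  Or.inl ⟨rfl, s, s', _, _, h1, h2, h3, h4, dv_mob μ a b c d s ha hs,
    dv_mob μ a' b' c' d' s' ha' hs', h⟩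

private theorem ty1 {m : ℕ} (r : Pt m → Pt m) (μ : ℕ) (s s' : ℤ) (a b c d a' b' c' d' : ℤ)
    (ha : ¬ (3 : ℤ) ∣ a) (ha' : ¬ (3 : ℤ) ∣ a') (h1 : ¬ (3 : ℤ) ∣ s) (h3 : ¬ (3 : ℤ) ∣ s')
    (hs : (3 : ℤ) ∣ a * d - 3 ^ (μ + 1) * b * c - s * a ^ 2)
    (hs' : (3 : ℤ) ∣ a' * d' - 3 ^ (μ + 1) * b' * c' - s' * a' ^ 2)
    (h : ∀ p : Pt m, r p = (mob μ a b c d p.2, mob μ a' b' c' d' p.1)) : Ty 1 r :=
  Or.inr ⟨rfl, s, s', _, _, h1, h3, dv_mob μ a b c d s ha hs, dv_mob μ a' b' c' d' s' ha' hs', h⟩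

private theorem dR_eq (μ : ℕ) {m : ℕ} (p : Pt m) :
    dR μ p = (mob μ 1 (-1) 0 (-1) p.1, mob μ 1 0 1 (-1) p.2) := by
  show (mob μ 1 (-1) 0 1 (-p.1), mob μ 1 0 (-1) 1 (-p.2)) = _
  rw [mob_arg_neg, mob_arg_neg]
  norm_num

private theorem dRdR (μ : ℕ) {m : ℕ} (p : Pt m) : dR μ (dR μ p) = p := by
  rw [dR_eq, dR_eq]
  refine Prod.ext ?_ ?_
  · show mob μ 1 (-1) 0 (-1) (mob μ 1 (-1) 0 (-1) p.1) = p.1
    rw [mob_mob _ _ _ _ _ _ _ _ _ (by norm_num) (by norm_num) (by norm_num)]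
    norm_num [mob_id]
  · show mob μ 1 0 1 (-1) (mob μ 1 0 1 (-1) p.2) = p.2
    rw [mob_mob _ _ _ _ _ _ _ _ _ (by norm_num) (by norm_num) (by norm_num)]
    norm_num [mob_id]

/-- Composition of two fractional linear maps, up to the scalar `k`. -/
private theorem mm (μ : ℕ) (k : ℤ) {m : ℕ} (a b c d a' b' c' d' A B C D : ℤ) (ha : ¬ (3 : ℤ) ∣ a)
    (ha' : ¬ (3 : ℤ) ∣ a') (hA : ¬ (3 : ℤ) ∣ A) (hk : ¬ (3 : ℤ) ∣ k)
    (h1 : a * a' + 3 ^ (μ + 1) * b * c' = k * A) (h2 : a * b' + b * d' = k * B)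
    (h3 : c * a' + d * c' = k * C) (h4 : 3 ^ (μ + 1) * c * b' + d * d' = k * D) (t : ZMod (3 ^ m)) :
    mob μ a' b' c' d' (mob μ a b c d t) = mob μ A B C D t := by
  have h5 : Prime (3 : ℤ) := by norm_num
  have hkA : ¬ (3 : ℤ) ∣ k * A := fun h => (h5.dvd_or_dvd h).elim hk hA
  rw [mob_mob μ a b c d a' b' c' d' ha ha' (by rw [h1]; exact hkA) t, h1, h2, h3, h4]
  refine frac_eq (unitA μ _ _ hkA t) (unitA μ A C hA t) ?_
  push_cast
  ring

private theorem swH_eq0 {m : ℕ} (p : Pt m) :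
    swH p = (mob 0 2 0 0 1 p.2, mob 0 1 0 0 2 p.1) := by
  unfold swH mob
  simp

private theorem swH_eq1 {m : ℕ} (p : Pt m) :
    swH p = (mob 1 2 0 0 1 p.2, mob 1 1 0 0 2 p.1) := by
  unfold swH mob
  simp

private theorem ng_eq (μ : ℕ) {m : ℕ} (p : Pt m) :
    ng p = (mob μ 1 0 0 (-1) p.1, mob μ 1 0 0 (-1) p.2) := by
  unfold ng mob
  simp

private theorem ngsw_eq {m : ℕ} (p : Pt m) :
    ng (swH p) = (mob 1 2 0 0 (-1) p.2, mob 1 1 0 0 (-2) p.1) := by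
  unfold ng swH mob
  simp

private theorem cOH_eq {m : ℕ} (p : Pt m) :
    cOH p = (mob 0 2 (-1) 1 (-1) p.2, mob 0 1 (-1) 1 (-2) p.1) := by
  unfold cOH
  rw [swH_eq0, trp_eq]
  exact Prod.ext (mm _ (2) _ _ _ _ _ _ _ _ _ _ _ _ (by norm_num) (by norm_num) (by norm_num) (by norm_num) (by norm_num) (by norm_num) (by norm_num) (by norm_num) _)
    (mm _ (-2) _ _ _ _ _ _ _ _ _ _ _ _ (by norm_num) (by norm_num) (by norm_num) (by norm_num) (by norm_num) (by norm_num) (by norm_num) (by norm_num) _)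

private theorem cBH_eq {m : ℕ} (p : Pt m) :
    cBH p = (mob 1 4 (-1) 1 (-2) p.2, mob 1 2 (-1) 1 (-4) p.1) := by
  unfold cBH
  rw [swH_eq1, trp_eq]
  exact Prod.ext (mm _ (2) _ _ _ _ _ _ _ _ _ _ _ _ (by norm_num) (by norm_num) (by norm_num) (by norm_num) (by norm_num) (by norm_num) (by norm_num) (by norm_num) _)
    (mm _ (-2) _ _ _ _ _ _ _ _ _ _ _ _ (by norm_num) (by norm_num) (by norm_num) (by norm_num) (by norm_num) (by norm_num) (by norm_num) (by norm_num) _)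

private theorem cCH_eq {m : ℕ} (p : Pt m) :
    cCH p = (mob 1 2 (-1) 1 (-4) p.2, mob 1 4 (-1) 1 (-2) p.1) := by
  unfold cCH
  rw [swH_eq1, trp_eq]
  exact Prod.ext (mm _ (2) _ _ _ _ _ _ _ _ _ _ _ _ (by norm_num) (by norm_num) (by norm_num) (by norm_num) (by norm_num) (by norm_num) (by norm_num) (by norm_num) _)
    (mm _ (-2) _ _ _ _ _ _ _ _ _ _ _ _ (by norm_num) (by norm_num) (by norm_num) (by norm_num) (by norm_num) (by norm_num) (by norm_num) (by norm_num) _)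

private theorem swsw {m : ℕ} (p : Pt m) : swH (swH p) = p := by
  rw [swH_eq0, swH_eq0]
  exact Prod.ext ((mm _ (2) _ _ _ _ _ _ _ _ 1 0 0 1 (by norm_num) (by norm_num) (by norm_num) (by norm_num) (by norm_num) (by norm_num) (by norm_num) (by norm_num) _).trans (mob_id _ _))
    ((mm _ (2) _ _ _ _ _ _ _ _ 1 0 0 1 (by norm_num) (by norm_num) (by norm_num) (by norm_num) (by norm_num) (by norm_num) (by norm_num) (by norm_num) _).trans (mob_id _ _))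

private theorem cOH2 {m : ℕ} (p : Pt m) : cOH (cOH p) = p := by
  rw [cOH_eq, cOH_eq]
  exact Prod.ext ((mm _ (-1) _ _ _ _ _ _ _ _ 1 0 0 1 (by norm_num) (by norm_num) (by norm_num) (by norm_num) (by norm_num) (by norm_num) (by norm_num) (by norm_num) _).trans (mob_id _ _))
    ((mm _ (-1) _ _ _ _ _ _ _ _ 1 0 0 1 (by norm_num) (by norm_num) (by norm_num) (by norm_num) (by norm_num) (by norm_num) (by norm_num) (by norm_num) _).trans (mob_id _ _))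

private theorem cBH2 {m : ℕ} (p : Pt m) : cBH (cBH p) = p := by
  rw [cBH_eq, cBH_eq]
  exact Prod.ext ((mm _ (-1) _ _ _ _ _ _ _ _ 1 0 0 1 (by norm_num) (by norm_num) (by norm_num) (by norm_num) (by norm_num) (by norm_num) (by norm_num) (by norm_num) _).trans (mob_id _ _))
    ((mm _ (-1) _ _ _ _ _ _ _ _ 1 0 0 1 (by norm_num) (by norm_num) (by norm_num) (by norm_num) (by norm_num) (by norm_num) (by norm_num) (by norm_num) _).trans (mob_id _ _))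

private theorem cCH2 {m : ℕ} (p : Pt m) : cCH (cCH p) = p := by
  rw [cCH_eq, cCH_eq]
  exact Prod.ext ((mm _ (-1) _ _ _ _ _ _ _ _ 1 0 0 1 (by norm_num) (by norm_num) (by norm_num) (by norm_num) (by norm_num) (by norm_num) (by norm_num) (by norm_num) _).trans (mob_id _ _))
    ((mm _ (-1) _ _ _ _ _ _ _ _ 1 0 0 1 (by norm_num) (by norm_num) (by norm_num) (by norm_num) (by norm_num) (by norm_num) (by norm_num) (by norm_num) _).trans (mob_id _ _))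

private theorem dRcOA {m : ℕ} (p : Pt m) :
    dR 0 (cOH p) = (mob 0 2 (-1) 1 (-2) p.2, mob 0 2 (-1) 1 (-2) p.1) := by
  rw [cOH_eq, dR_eq]
  exact Prod.ext (mm _ (1) _ _ _ _ _ _ _ _ _ _ _ _ (by norm_num) (by norm_num) (by norm_num) (by norm_num) (by norm_num) (by norm_num) (by norm_num) (by norm_num) _)
    (mm _ (-1) _ _ _ _ _ _ _ _ _ _ _ _ (by norm_num) (by norm_num) (by norm_num) (by norm_num) (by norm_num) (by norm_num) (by norm_num) (by norm_num) _)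

private theorem dRcOB {m : ℕ} (p : Pt m) :
    cOH (dR 0 p) = (mob 0 2 (-1) 1 (-2) p.2, mob 0 2 (-1) 1 (-2) p.1) := by
  rw [dR_eq, cOH_eq]
  exact Prod.ext (mm _ (1) _ _ _ _ _ _ _ _ _ _ _ _ (by norm_num) (by norm_num) (by norm_num) (by norm_num) (by norm_num) (by norm_num) (by norm_num) (by norm_num) _)
    (mm _ (-1) _ _ _ _ _ _ _ _ _ _ _ _ (by norm_num) (by norm_num) (by norm_num) (by norm_num) (by norm_num) (by norm_num) (by norm_num) (by norm_num) _)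

private theorem dRcCA {m : ℕ} (p : Pt m) :
    dR 1 (cCH p) = (mob 1 2 (-1) 1 (-5) p.2, mob 1 5 (-1) 1 (-2) p.1) := by
  rw [cCH_eq, dR_eq]
  exact Prod.ext (mm _ (1) _ _ _ _ _ _ _ _ _ _ _ _ (by norm_num) (by norm_num) (by norm_num) (by norm_num) (by norm_num) (by norm_num) (by norm_num) (by norm_num) _)
    (mm _ (-1) _ _ _ _ _ _ _ _ _ _ _ _ (by norm_num) (by norm_num) (by norm_num) (by norm_num) (by norm_num) (by norm_num) (by norm_num) (by norm_num) _)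

private theorem dRcCB {m : ℕ} (p : Pt m) :
    cCH (dR 1 p) = (mob 1 2 (-1) 1 (-5) p.2, mob 1 5 (-1) 1 (-2) p.1) := by
  rw [dR_eq, cCH_eq]
  exact Prod.ext (mm _ (1) _ _ _ _ _ _ _ _ _ _ _ _ (by norm_num) (by norm_num) (by norm_num) (by norm_num) (by norm_num) (by norm_num) (by norm_num) (by norm_num) _)
    (mm _ (-1) _ _ _ _ _ _ _ _ _ _ _ _ (by norm_num) (by norm_num) (by norm_num) (by norm_num) (by norm_num) (by norm_num) (by norm_num) (by norm_num) _)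

private theorem swcOA {m : ℕ} (p : Pt m) :
    swH (cOH p) = (mob 0 (-2) 1 (-2) 2 p.1, mob 0 2 (-2) 1 (-2) p.2) := by
  rw [cOH_eq, swH_eq0]
  exact Prod.ext (mm _ (-1) _ _ _ _ _ _ _ _ _ _ _ _ (by norm_num) (by norm_num) (by norm_num) (by norm_num) (by norm_num) (by norm_num) (by norm_num) (by norm_num) _)
    (mm _ (1) _ _ _ _ _ _ _ _ _ _ _ _ (by norm_num) (by norm_num) (by norm_num) (by norm_num) (by norm_num) (by norm_num) (by norm_num) (by norm_num) _)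

private theorem swcOB {m : ℕ} (p : Pt m) :
    cOH (swH p) = (mob 0 (-2) 1 (-2) 2 p.1, mob 0 2 (-2) 1 (-2) p.2) := by
  rw [swH_eq0, cOH_eq]
  exact Prod.ext (mm _ (-1) _ _ _ _ _ _ _ _ _ _ _ _ (by norm_num) (by norm_num) (by norm_num) (by norm_num) (by norm_num) (by norm_num) (by norm_num) (by norm_num) _)
    (mm _ (1) _ _ _ _ _ _ _ _ _ _ _ _ (by norm_num) (by norm_num) (by norm_num) (by norm_num) (by norm_num) (by norm_num) (by norm_num) (by norm_num) _)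

private theorem swcBA {m : ℕ} (p : Pt m) :
    swH (cBH p) = (mob 1 (-4) 1 (-2) 4 p.1, mob 1 4 (-2) 1 (-4) p.2) := by
  rw [cBH_eq, swH_eq1]
  exact Prod.ext (mm _ (-1) _ _ _ _ _ _ _ _ _ _ _ _ (by norm_num) (by norm_num) (by norm_num) (by norm_num) (by norm_num) (by norm_num) (by norm_num) (by norm_num) _)
    (mm _ (1) _ _ _ _ _ _ _ _ _ _ _ _ (by norm_num) (by norm_num) (by norm_num) (by norm_num) (by norm_num) (by norm_num) (by norm_num) (by norm_num) _)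

private theorem swcBB {m : ℕ} (p : Pt m) :
    cBH (swH p) = (mob 1 (-4) 1 (-2) 4 p.1, mob 1 4 (-2) 1 (-4) p.2) := by
  rw [swH_eq1, cBH_eq]
  exact Prod.ext (mm _ (-1) _ _ _ _ _ _ _ _ _ _ _ _ (by norm_num) (by norm_num) (by norm_num) (by norm_num) (by norm_num) (by norm_num) (by norm_num) (by norm_num) _)
    (mm _ (1) _ _ _ _ _ _ _ _ _ _ _ _ (by norm_num) (by norm_num) (by norm_num) (by norm_num) (by norm_num) (by norm_num) (by norm_num) (by norm_num) _)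

/-- Module TYPH3. -/
theorem hTypH3 : HTyp3 := by
  intro m
  refine ⟨⟨⟨?_, swsw, ?_⟩, ?_, ?_, ?_⟩,
    ⟨⟨dRdR 0, cOH2, fun p => (dRcOA p).trans (dRcOB p).symm⟩, ?_, ?_, ?_⟩,
    ⟨⟨dRdR 1, cCH2, fun p => (dRcCA p).trans (dRcCB p).symm⟩, ?_, ?_, ?_⟩,
    ⟨⟨swsw, cOH2, fun p => (swcOA p).trans (swcOB p).symm⟩, ?_⟩,
    ⟨⟨swsw, cBH2, fun p => (swcBA p).trans (swcBB p).symm⟩, ?_, ?_⟩,
    fun p => swcOA p, fun p => swcBA p⟩
  · intro p
    simp [ng]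
  · intro p
    unfold ng swH
    simp
  · exact ty0 _ 0 2 2 _ _ _ _ _ _ _ _ (by norm_num) (by norm_num) (by norm_num) (by norm_num) (by norm_num) (by norm_num) (by norm_num) (by norm_num) (ng_eq 0)
  · exact ty1 _ 1 2 2 _ _ _ _ _ _ _ _ (by norm_num) (by norm_num) (by norm_num) (by norm_num) (by norm_num) (by norm_num) swH_eq1
  · exact ty1 _ 1 1 1 _ _ _ _ _ _ _ _ (by norm_num) (by norm_num) (by norm_num) (by norm_num) (by norm_num) (by norm_num) ngsw_eq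
  · exact ty0 _ 0 2 2 _ _ _ _ _ _ _ _ (by norm_num) (by norm_num) (by norm_num) (by norm_num) (by norm_num) (by norm_num) (by norm_num) (by norm_num) (dR_eq 0)
  · exact ty1 _ 0 1 1 _ _ _ _ _ _ _ _ (by norm_num) (by norm_num) (by norm_num) (by norm_num) (by norm_num) (by norm_num) cOH_eq
  · exact ty1 _ 0 2 2 _ _ _ _ _ _ _ _ (by norm_num) (by norm_num) (by norm_num) (by norm_num) (by norm_num) (by norm_num) dRcOA
  · exact ty0 _ 1 2 2 _ _ _ _ _ _ _ _ (by norm_num) (by norm_num) (by norm_num) (by norm_num) (by norm_num) (by norm_num) (by norm_num) (by norm_num) (dR_eq 1)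
  · exact ty1 _ 1 1 1 _ _ _ _ _ _ _ _ (by norm_num) (by norm_num) (by norm_num) (by norm_num) (by norm_num) (by norm_num) cCH_eq
  · exact ty1 _ 1 2 2 _ _ _ _ _ _ _ _ (by norm_num) (by norm_num) (by norm_num) (by norm_num) (by norm_num) (by norm_num) dRcCA
  · exact ty0 _ 0 2 2 _ _ _ _ _ _ _ _ (by norm_num) (by norm_num) (by norm_num) (by norm_num) (by norm_num) (by norm_num) (by norm_num) (by norm_num) swcOA
  · exact ty1 _ 1 1 1 _ _ _ _ _ _ _ _ (by norm_num) (by norm_num) (by norm_num) (by norm_num) (by norm_num) (by norm_num) cBH_eq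
  · exact ty0 _ 1 2 2 _ _ _ _ _ _ _ _ (by norm_num) (by norm_num) (by norm_num) (by norm_num) (by norm_num) (by norm_num) (by norm_num) (by norm_num) swcBA

end Pool.Agent.Helper27.TH3
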